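import Mathlib

open Polynomial

namespace Pool.Agent.Results.MP_6eafb7_an.NorlundPositivity

noncomputable section

/-- The power series `(e^t - 1)/t`. -/
def expQuot : PowerSeries ℝ := PowerSeries.mk fun n => 1 / ((n + 1).factorial : ℝ)

/-- The power series `e^{xt}`. -/
def expMul (x : ℝ) : PowerSeries ℝ := PowerSeries.mk fun n => x ^ n / (n.factorial : ℝ)

/-- The generalized Bernoulli polynomial `B_m^{(a)}(x)` for a natural number `a`: the coefficient
of `t^m/m!` in `(t/(e^t-1))^a e^{xt}`. -/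
def B (a m : ℕ) (x : ℝ) : ℝ :=
  (m.factorial : ℝ) * PowerSeries.coeff m ((expQuot⁻¹) ^ a * expMul x)

/-- `α_{n,k}(x)`. -/
def alpha (n k : ℕ) (x : ℝ) : ℝ :=
  (-1) ^ k * ∑ j ∈ Finset.range (2 * k + 1), (-1) ^ j * (n.choose j : ℝ) * (n.choose (2 * k - j) : ℝ)
    * B n (n - j) x * B n (n - 2 * k + j) x

/-- `β_{n,k}(x)`. -/
def beta (n k : ℕ) (x : ℝ) : ℝ :=
  (-1) ^ k * ∑ j ∈ Finset.range (2 * k + 1), (-1) ^ j * (n.choose j : ℝ) * (n.choose (2 * k - j) : ℝ)
    * B n j x * B n (2 * k - j) x

/-! ### Power series identities -/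

/-- the series `t/(e^t-1)` -/
def Tq : PowerSeries ℝ := expQuot⁻¹

lemma cE : PowerSeries.constantCoeff expQuot = 1 := by
  rw [← PowerSeries.coeff_zero_eq_constantCoeff_apply, expQuot, PowerSeries.coeff_mk]; simp

lemma E_mul_T : expQuot * Tq = 1 := by
  rw [Tq]; exact PowerSeries.mul_inv_cancel _ (by rw [cE]; norm_num)

lemma X_mul_E : PowerSeries.X * expQuot = expMul 1 - 1 := by
  ext n
  cases n with
  | zero =>
    rw [mul_comm, PowerSeries.coeff_zero_mul_X, map_sub, expMul, PowerSeries.coeff_mk,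
      PowerSeries.coeff_one]
    simp
  | succ n =>
    rw [mul_comm, PowerSeries.coeff_succ_mul_X, expQuot, PowerSeries.coeff_mk, map_sub, expMul,
      PowerSeries.coeff_mk, PowerSeries.coeff_one]
    simp

lemma expMul_add (x y : ℝ) : expMul (x + y) = expMul x * expMul y := by
  ext n
  rw [PowerSeries.coeff_mul]
  simp only [expMul, PowerSeries.coeff_mk]
  rw [Finset.Nat.sum_antidiagonal_eq_sum_range_succ
    (f := fun i j => x ^ i / (i.factorial : ℝ) * (y ^ j / (j.factorial : ℝ))), add_pow,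
    Finset.sum_div]
  apply Finset.sum_congr rfl
  intro i hi
  have hin : i ≤ n := by have := Finset.mem_range.1 hi; omega
  rw [Nat.cast_choose ℝ hin]
  have h1 : (i.factorial : ℝ) ≠ 0 := by positivity
  have h2 : ((n - i).factorial : ℝ) ≠ 0 := by positivity
  have h3 : (n.factorial : ℝ) ≠ 0 := by positivity
  field_simp

/-- the Euler operator `t d/dt` on power series -/
def theta (f : PowerSeries ℝ) : PowerSeries ℝ := PowerSeries.X * PowerSeries.derivative ℝ f

lemma theta_coeff (f : PowerSeries ℝ) (n : ℕ) :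
    PowerSeries.coeff n (theta f) = n * PowerSeries.coeff n f := by
  unfold theta
  cases n with
  | zero => simp
  | succ n =>
    rw [mul_comm PowerSeries.X, PowerSeries.coeff_succ_mul_X]
    have : PowerSeries.coeff n (PowerSeries.derivative ℝ f) =
      PowerSeries.coeff (n + 1) f * (n + 1) := PowerSeries.coeff_derivative f n
    rw [this]; push_cast; ring


lemma deriv_expMul (x : ℝ) :
    PowerSeries.derivative ℝ (expMul x) = PowerSeries.C x * expMul x := by
  ext n
  have h := PowerSeries.coeff_derivative (expMul x) n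
  rw [h, PowerSeries.coeff_C_mul]
  simp only [expMul, PowerSeries.coeff_mk]
  rw [Nat.factorial_succ, pow_succ]
  push_cast
  have h1 : (n.factorial : ℝ) ≠ 0 := by positivity
  field_simp

/-- the generating series -/
def G (a : ℕ) (x : ℝ) : PowerSeries ℝ := Tq ^ a * expMul x

lemma B_eq (a m : ℕ) (x : ℝ) : B a m x = (m.factorial : ℝ) * PowerSeries.coeff m (G a x) := rfl

lemma X_deriv_T : PowerSeries.X * PowerSeries.derivative ℝ Tq =
    Tq - PowerSeries.X * Tq - Tq ^ 2 := by
  have h1 : PowerSeries.derivative ℝ (PowerSeries.X * expQuot) = expMul 1 := by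
    rw [X_mul_E, map_sub, deriv_expMul]
    simp
  rw [Derivation.leibniz] at h1
  simp only [smul_eq_mul, PowerSeries.derivative_X, mul_one] at h1
  have h2 : PowerSeries.derivative ℝ (expQuot * Tq) = 0 := by
    rw [E_mul_T, PowerSeries.derivative_one]
  rw [Derivation.leibniz] at h2
  simp only [smul_eq_mul] at h2
  have h3 : expMul 1 = PowerSeries.X * expQuot + 1 := by rw [X_mul_E]; ring
  rw [h3] at h1
  have h4 := E_mul_T
  linear_combination (PowerSeries.X * Tq) * h2 - (Tq ^ 2) * h1 +
    (-PowerSeries.X * PowerSeries.derivative ℝ Tq + Tq - PowerSeries.X * Tq) * h4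

lemma theta_G (b : ℕ) (x : ℝ) : theta (G (b + 1) x) =
    ((b : PowerSeries ℝ) + 1) * G (b + 1) x - ((b : PowerSeries ℝ) + 1) * (PowerSeries.X * G (b + 1) x)
      - ((b : PowerSeries ℝ) + 1) * G (b + 2) x + PowerSeries.C x * (PowerSeries.X * G (b + 1) x) := by
  unfold theta G
  rw [Derivation.leibniz, deriv_expMul, Derivation.leibniz_pow]
  simp only [smul_eq_mul, nsmul_eq_mul, Nat.add_sub_cancel]
  have h := X_deriv_T
  push_cast
  linear_combination (expMul x * ((b : PowerSeries ℝ) + 1) * Tq ^ b) * h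

lemma coeff_natCast_add_one_mul (b : ℕ) (f : PowerSeries ℝ) (n : ℕ) :
    PowerSeries.coeff n (((b : PowerSeries ℝ) + 1) * f) = ((b : ℝ) + 1) * PowerSeries.coeff n f := by
  have : ((b : PowerSeries ℝ) + 1) = PowerSeries.C ((b : ℝ) + 1) := by simp
  rw [this, PowerSeries.coeff_C_mul]

lemma coeff_rec (b m : ℕ) (x : ℝ) : ((m : ℝ) + 1) * PowerSeries.coeff (m + 1) (G (b + 1) x) =
    ((b : ℝ) + 1) * PowerSeries.coeff (m + 1) (G (b + 1) x) +
    (x - ((b : ℝ) + 1)) * PowerSeries.coeff m (G (b + 1) x) -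
    ((b : ℝ) + 1) * PowerSeries.coeff (m + 1) (G (b + 2) x) := by
  have h := congrArg (PowerSeries.coeff (m + 1)) (theta_G b x)
  rw [theta_coeff, map_add, map_sub, map_sub, coeff_natCast_add_one_mul,
    coeff_natCast_add_one_mul, coeff_natCast_add_one_mul, PowerSeries.coeff_C_mul,
    mul_comm PowerSeries.X, PowerSeries.coeff_succ_mul_X] at h
  push_cast at h
  linarith

lemma B_zero (a : ℕ) (x : ℝ) : B a 0 x = 1 := by
  have h : PowerSeries.constantCoeff Tq = 1 := by
    have := congrArg PowerSeries.constantCoeff E_mul_T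
    rw [map_mul, cE, one_mul, map_one] at this
    exact this
  rw [B_eq, G, PowerSeries.coeff_zero_eq_constantCoeff_apply, map_mul, map_pow, h,
    ← PowerSeries.coeff_zero_eq_constantCoeff_apply, expMul, PowerSeries.coeff_mk]
  simp

/-- `B_n^{(n+1)}(x) = (x-1)⋯(x-n)` -/
lemma B_succ (n : ℕ) (x : ℝ) : B (n + 1) n x = ∏ j ∈ Finset.range n, (x - ((j : ℝ) + 1)) := by
  induction n with
  | zero => simpa using B_zero 1 x
  | succ n ih =>
    rw [Finset.prod_range_succ, ← ih]
    have h := coeff_rec n n x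
    rw [B_eq, B_eq, Nat.factorial_succ]
    push_cast
    linear_combination (n.factorial : ℝ) * h

lemma B_add (a n : ℕ) (x y : ℝ) : B a n (x + y) =
    ∑ r ∈ Finset.range (n + 1), (n.choose r : ℝ) * B a (n - r) x * y ^ r := by
  rw [B_eq, G, expMul_add, ← mul_assoc, mul_comm (Tq ^ a * expMul x), PowerSeries.coeff_mul,
    Finset.Nat.sum_antidiagonal_eq_sum_range_succ
      (f := fun i j => PowerSeries.coeff i (expMul y) * PowerSeries.coeff j (Tq ^ a * expMul x)),
    Finset.mul_sum]
  apply Finset.sum_congr rfl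
  intro i hi
  have hin : i ≤ n := by have := Finset.mem_range.1 hi; omega
  rw [B_eq, G, expMul, PowerSeries.coeff_mk, Nat.cast_choose ℝ hin]
  have h1 : (i.factorial : ℝ) ≠ 0 := by positivity
  have h2 : ((n - i).factorial : ℝ) ≠ 0 := by positivity
  have h3 : (n.factorial : ℝ) ≠ 0 := by positivity
  field_simp

lemma B_diff (a n : ℕ) (x : ℝ) : B (a + 1) (n + 1) (x + 1) - B (a + 1) (n + 1) x =
    (n + 1) * B a n x := by
  have h : G (a + 1) (x + 1) - G (a + 1) x = PowerSeries.X * G a x := by
    unfold G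
    rw [expMul_add]
    have h1 := X_mul_E
    have h2 := E_mul_T
    have h3 : expMul 1 = PowerSeries.X * expQuot + 1 := by rw [X_mul_E]; ring
    rw [h3]
    linear_combination (PowerSeries.X * Tq ^ a * expMul x) * h2
  have h' := congrArg (PowerSeries.coeff (n + 1)) h
  rw [map_sub, mul_comm PowerSeries.X, PowerSeries.coeff_succ_mul_X] at h'
  rw [B_eq, B_eq, B_eq, Nat.factorial_succ]
  push_cast
  linear_combination ((n : ℝ) + 1) * (n.factorial : ℝ) * h'

/-- the polynomial `B_n^{(a)}` -/
def Bp (a n : ℕ) : ℝ[X] := ∑ r ∈ Finset.range (n + 1), C ((n.choose r : ℝ) * B a (n - r) 0) * X ^ r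

lemma Bp_eval (a n : ℕ) (x : ℝ) : (Bp a n).eval x = B a n x := by
  have := B_add a n 0 x
  rw [zero_add] at this
  rw [this, Bp, eval_finsetSum]
  apply Finset.sum_congr rfl
  intro r _
  simp

lemma Bp_coeff (a n k : ℕ) : (Bp a n).coeff k =
    if k ≤ n then (n.choose k : ℝ) * B a (n - k) 0 else 0 := by
  rw [Bp, finsetSum_coeff]
  simp only [coeff_C_mul, coeff_X_pow]
  split_ifs with h
  · rw [Finset.sum_eq_single k]
    · simp
    · intro b _ hb
      simp [hb.symm]
    · intro h'
      exact absurd (Finset.mem_range.2 (by omega)) h'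
  · apply Finset.sum_eq_zero
    intro b hb
    have := Finset.mem_range.1 hb
    simp [show k ≠ b by omega]

lemma Bp_derivative (a n : ℕ) : derivative (Bp a (n + 1)) = C ((n : ℝ) + 1) * Bp a n := by
  ext k
  rw [coeff_derivative, coeff_C_mul, Bp_coeff, Bp_coeff]
  by_cases h : k ≤ n
  · rw [if_pos h, if_pos (by omega), show n + 1 - (k + 1) = n - k by omega]
    have := Nat.add_one_mul_choose_eq n k
    have h2 : ((n : ℝ) + 1) * (n.choose k : ℝ) = ((n + 1).choose (k + 1) : ℝ) * ((k : ℝ) + 1) := by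
      exact_mod_cast this
    linear_combination (-B a (n - k) 0) * h2
  · rw [if_neg h, if_neg (by omega)]; simp

lemma B_hasDerivAt (a n : ℕ) (x : ℝ) : HasDerivAt (B a (n + 1)) (((n : ℝ) + 1) * B a n x) x := by
  have h := (Bp a (n + 1)).hasDerivAt x
  rw [Bp_derivative, eval_mul, eval_C, Bp_eval] at h
  have e : (fun x => (Bp a (n + 1)).eval x) = B a (n + 1) := funext fun x => Bp_eval _ _ _
  rwa [e] at h

lemma prod_sign (m : ℕ) {u : ℝ} (h1 : (m : ℝ) < u) (h2 : u < m + 1) (d : ℕ) :
    0 < (-1 : ℝ) ^ d * ∏ j ∈ Finset.range (m + d), (u - ((j : ℝ) + 1)) := by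
  induction d with
  | zero =>
    simp only [pow_zero, one_mul, add_zero]
    apply Finset.prod_pos
    intro j hj
    have : (j : ℝ) + 1 ≤ m := by exact_mod_cast Finset.mem_range.1 hj
    linarith
  | succ d ih =>
    rw [← add_assoc, Finset.prod_range_succ, pow_succ]
    have h3 : u - (((m + d : ℕ) : ℝ) + 1) < 0 := by
      push_cast
      have : (0 : ℝ) ≤ d := Nat.cast_nonneg d
      linarith
    have := mul_pos_of_neg_of_neg (by linarith : -((-1 : ℝ) ^ d *
      ∏ j ∈ Finset.range (m + d), (u - ((j : ℝ) + 1))) < 0) h3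
    linarith

lemma B_sign (m d : ℕ) : 0 < (-1 : ℝ) ^ d * B (m + d) (m + d) m := by
  have hd := B_diff (m + d) (m + d) m
  obtain ⟨c, ⟨hc1, hc2⟩, hc⟩ := exists_hasDerivAt_eq_slope (B (m + d + 1) (m + d + 1))
    (fun u => (((m + d : ℕ) : ℝ) + 1) * B (m + d + 1) (m + d) u) (a := (m : ℝ)) (b := (m : ℝ) + 1)
    (by linarith) (fun u _ => (B_hasDerivAt _ _ u).continuousAt.continuousWithinAt)
    (fun u _ => B_hasDerivAt _ _ u)
  rw [hd, B_succ] at hc
  have hs := prod_sign m hc1 hc2 d
  have hpos : (0 : ℝ) < ((m + d : ℕ) : ℝ) + 1 := by positivity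
  have h2 : (m : ℝ) + 1 - m = 1 := by ring
  rw [h2, div_one] at hc
  have h3 := mul_left_cancel₀ hpos.ne' hc
  rw [← h3]
  exact hs

lemma B_continuous (a n : ℕ) : Continuous (B a n) := by
  have e : (fun x => (Bp a n).eval x) = B a n := funext fun x => Bp_eval _ _ _
  rw [← e]
  exact (Bp a n).continuous

lemma exists_root {n m : ℕ} (hm : m < n) : ∃ r : ℝ, (m : ℝ) < r ∧ r < m + 1 ∧ B n n r = 0 := by
  obtain ⟨d, rfl⟩ : ∃ d, n = m + d + 1 := ⟨n - m - 1, by omega⟩
  have h1 := B_sign m (d + 1)
  have h2 := B_sign (m + 1) d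
  rw [show m + (d + 1) = m + d + 1 by ring] at h1
  rw [show m + 1 + d = m + d + 1 by ring] at h2
  push_cast at h2
  have hcont : ContinuousOn (fun x => (-1 : ℝ) ^ d * B (m + d + 1) (m + d + 1) x)
      (Set.Icc (m : ℝ) (m + 1)) := (continuous_const.mul (B_continuous _ _)).continuousOn
  have h3 := intermediate_value_Ioo (by linarith : (m : ℝ) ≤ m + 1) hcont
  have h4 : (0 : ℝ) ∈ Set.Ioo ((-1 : ℝ) ^ d * B (m + d + 1) (m + d + 1) m)
      ((-1 : ℝ) ^ d * B (m + d + 1) (m + d + 1) ((m : ℝ) + 1)) := by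
    constructor
    · rw [pow_succ] at h1; linarith
    · exact h2
  obtain ⟨r, ⟨hr1, hr2⟩, hr⟩ := h3 h4
  refine ⟨r, hr1, hr2, ?_⟩
  rcases mul_eq_zero.1 hr with h | h
  · exact absurd h (by positivity)
  · exact h

lemma Bp_natDegree (a n : ℕ) : (Bp a n).natDegree = n := by
  apply le_antisymm
  · rw [natDegree_le_iff_coeff_eq_zero]
    intro N hN
    rw [Bp_coeff, if_neg (by omega)]
  · apply le_natDegree_of_ne_zero
    rw [Bp_coeff, if_pos le_rfl, Nat.sub_self, B_zero]; simp

lemma Bp_monic (a n : ℕ) : (Bp a n).Monic := by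
  rw [Monic, leadingCoeff, Bp_natDegree, Bp_coeff, if_pos le_rfl, Nat.sub_self, B_zero]; simp

/-- all zeros of `B_n^{(n)}` are real -/
lemma exists_factorisation (n : ℕ) : ∃ s : Multiset ℝ, s.card = n ∧
    ∀ x, B n n x = (s.map fun r => x - r).prod := by
  have hroot : ∀ m : Fin n, ∃ r : ℝ, (m : ℝ) < r ∧ r < (m : ℝ) + 1 ∧ B n n r = 0 :=
    fun m => exists_root m.2
  choose r hr1 hr2 hr3 using hroot
  have hinj : Function.Injective r := by
    intro a b hab
    by_contra hne
    rcases lt_or_gt_of_ne hne with h | h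
    · have h1 : ((a : ℕ) : ℝ) + 1 ≤ ((b : ℕ) : ℝ) := by exact_mod_cast h
      linarith [hr2 a, hr1 b]
    · have h1 : ((b : ℕ) : ℝ) + 1 ≤ ((a : ℕ) : ℝ) := by exact_mod_cast h
      linarith [hr2 b, hr1 a]
  have hne : Bp n n ≠ 0 := (Bp_monic n n).ne_zero
  have hsub : Finset.univ.image r ⊆ (Bp n n).roots.toFinset := by
    intro x hx
    obtain ⟨m, -, rfl⟩ := Finset.mem_image.1 hx
    rw [Multiset.mem_toFinset, mem_roots hne, IsRoot.def, Bp_eval]
    exact hr3 m
  have hcard1 : n ≤ (Bp n n).roots.toFinset.card := by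
    have := Finset.card_le_card hsub
    rwa [Finset.card_image_of_injective _ hinj, Finset.card_univ, Fintype.card_fin] at this
  have hcard2 := Multiset.toFinset_card_le (Bp n n).roots
  have hcard3 := card_roots' (Bp n n)
  rw [Bp_natDegree] at hcard3
  have hcard : (Bp n n).roots.card = n := by omega
  refine ⟨(Bp n n).roots, hcard, ?_⟩
  intro x
  have hprod := prod_multiset_X_sub_C_of_monic_of_roots_card_eq (Bp_monic n n)
    (by rw [hcard, Bp_natDegree])
  rw [← Bp_eval]
  conv_lhs => rw [← hprod]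
  rw [eval_multiset_prod, Multiset.map_map]
  simp

/-! ### Positivity of the even coefficients -/

lemma prod_coeff_sign (s : Multiset ℝ) (u v : ℝ → ℝ) (hu : ∀ a, 0 ≤ u a) (hv : ∀ a, 0 ≤ v a)
    (k : ℕ) : 0 ≤ (-1 : ℝ) ^ k * ((s.map fun a => (C (u a) - C (v a) * X : ℝ[X])).prod).coeff k := by
  induction s using Multiset.induction generalizing k with
  | empty =>
    simp only [Multiset.map_zero, Multiset.prod_zero, coeff_one]
    split_ifs with h
    · rw [h]; norm_num
    · simp
  | cons a s ih =>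
    rw [Multiset.map_cons, Multiset.prod_cons]
    set q := (s.map fun a => (C (u a) - C (v a) * X : ℝ[X])).prod with hq
    have e : (C (u a) - C (v a) * X) * q = C (u a) * q - C (v a) * (q * X) := by ring
    rw [e, coeff_sub, coeff_C_mul, coeff_C_mul]
    cases k with
    | zero =>
      rw [mul_coeff_zero q X, coeff_X_zero, mul_zero, mul_zero]
      have := mul_nonneg (hu a) (ih 0)
      linarith
    | succ k =>
      rw [coeff_mul_X]
      have h1 := mul_nonneg (hu a) (ih (k + 1))
      have h2 := mul_nonneg (hv a) (ih k)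
      have e2 : (-1 : ℝ) ^ (k + 1) * (u a * q.coeff (k + 1) - v a * q.coeff k) =
        u a * ((-1 : ℝ) ^ (k + 1) * q.coeff (k + 1)) + v a * ((-1 : ℝ) ^ k * q.coeff k) := by
        rw [pow_succ]; ring
      rw [e2]; linarith

lemma comp_neg_coeff (p : ℝ[X]) (i : ℕ) : (p.comp (-X)).coeff i = (-1) ^ i * p.coeff i := by
  have h : (-X : ℝ[X]) = C (-1) * X := by simp
  rw [h, comp_C_mul_X_coeff]
  ring

lemma prod_expand (s : Multiset ℝ) (u v : ℝ → ℝ) :
    ((s.map fun a => (C (u a) + C (v a) * X : ℝ[X])).prod).comp (-X) *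
      (s.map fun a => (C (u a) + C (v a) * X : ℝ[X])).prod = expand ℝ 2
      ((s.map fun a => (C (u a ^ 2) - C (v a ^ 2) * X : ℝ[X])).prod) := by
  induction s using Multiset.induction with
  | empty => simp
  | cons a s ih =>
    simp only [Multiset.map_cons, Multiset.prod_cons, mul_comp, map_mul, add_comp, C_comp, X_comp,
      map_sub, expand_C, expand_X]
    rw [← ih]
    simp only [C_pow]
    ring

lemma conv_nonneg (s : Multiset ℝ) (u v : ℝ → ℝ) (p : ℝ[X])
    (hp : p = (s.map fun a => (C (u a) + C (v a) * X : ℝ[X])).prod) (k : ℕ) :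
    0 ≤ (-1 : ℝ) ^ k * ∑ j ∈ Finset.range (2 * k + 1),
      (-1) ^ j * p.coeff j * p.coeff (2 * k - j) := by
  have h1 : (p.comp (-X) * p).coeff (2 * k) = ∑ j ∈ Finset.range (2 * k + 1),
      (-1) ^ j * p.coeff j * p.coeff (2 * k - j) := by
    rw [coeff_mul, Finset.Nat.sum_antidiagonal_eq_sum_range_succ
      (f := fun i j => (p.comp (-X)).coeff i * p.coeff j)]
    apply Finset.sum_congr rfl
    intro j _
    rw [comp_neg_coeff]
  have h2 : p.comp (-X) * p = expand ℝ 2
      ((s.map fun a => (C (u a ^ 2) - C (v a ^ 2) * X : ℝ[X])).prod) := by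
    rw [hp]; exact prod_expand s u v
  rw [← h1, h2, mul_comm 2 k, coeff_expand_mul (by norm_num)]
  exact prod_coeff_sign s (fun a => u a ^ 2) (fun a => v a ^ 2) (fun a => sq_nonneg _)
    (fun a => sq_nonneg _) k

/-- For all `n ≥ 1` and real `x` both families of inequalities hold. -/
theorem result : ∀ n : ℕ, 1 ≤ n → ∀ x : ℝ,
    (∀ k : ℕ, 1 ≤ 2 * k → 2 * k ≤ n → 0 ≤ alpha n k x) ∧
    (∀ k : ℕ, 2 * k ≤ n - 1 → 0 ≤ beta n k x) := by
  intro n _ x
  obtain ⟨s, hs, hfac⟩ := exists_factorisation n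
  -- the shifted polynomial
  set A : ℝ[X] := ∑ r ∈ Finset.range (n + 1), C ((n.choose r : ℝ) * B n (n - r) x) * X ^ r with hA
  set A' : ℝ[X] := ∑ r ∈ Finset.range (n + 1), C ((n.choose r : ℝ) * B n r x) * X ^ r with hA'
  have hAeval : ∀ y, A.eval y = B n n (x + y) := by
    intro y
    rw [B_add, hA, eval_finsetSum]
    apply Finset.sum_congr rfl
    intro r _
    simp
  have hAc : ∀ k, A.coeff k = (n.choose k : ℝ) * B n (n - k) x := by
    intro k
    rw [hA, finsetSum_coeff]
    simp only [coeff_C_mul, coeff_X_pow]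
    by_cases h : k ≤ n
    · rw [Finset.sum_eq_single k]
      · simp
      · intro b _ hb
        simp [hb.symm]
      · intro h'
        exact absurd (Finset.mem_range.2 (by omega)) h'
    · rw [Nat.choose_eq_zero_of_lt (by omega), Nat.cast_zero, zero_mul]
      apply Finset.sum_eq_zero
      intro b hb
      have := Finset.mem_range.1 hb
      simp [show k ≠ b by omega]
  have hAc' : ∀ k, A'.coeff k = (n.choose k : ℝ) * B n k x := by
    intro k
    rw [hA', finsetSum_coeff]
    simp only [coeff_C_mul, coeff_X_pow]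
    by_cases h : k ≤ n
    · rw [Finset.sum_eq_single k]
      · simp
      · intro b _ hb
        simp [hb.symm]
      · intro h'
        exact absurd (Finset.mem_range.2 (by omega)) h'
    · rw [Nat.choose_eq_zero_of_lt (by omega), Nat.cast_zero, zero_mul]
      apply Finset.sum_eq_zero
      intro b hb
      have := Finset.mem_range.1 hb
      simp [show k ≠ b by omega]
  have hAprod : A = (s.map fun a => (C (x - a) + C (1 : ℝ) * X : ℝ[X])).prod := by
    apply Polynomial.funext
    intro y
    rw [hAeval, hfac, eval_multiset_prod, Multiset.map_map]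
    congr 1
    apply Multiset.map_congr rfl
    intro a _
    simp
    ring
  have hAprod' : A' = (s.map fun a => (C (1 : ℝ) + C (x - a) * X : ℝ[X])).prod := by
    apply Polynomial.eq_of_infinite_eval_eq
    apply Set.Infinite.mono (s := Set.Ioi 0) _ (Set.Ioi_infinite 0)
    intro y hy
    have hy0 : 0 < y := hy
    change A'.eval y = _
    have h1 : A'.eval y = y ^ n * A.eval (1 / y) := by
      rw [hA, hA', eval_finsetSum, eval_finsetSum, Finset.mul_sum,
        ← Finset.sum_range_reflect]
      apply Finset.sum_congr rfl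
      intro r hr
      have hrn : r ≤ n := by have := Finset.mem_range.1 hr; omega
      simp only [eval_mul, eval_C, eval_pow, eval_X]
      rw [show n + 1 - 1 - r = n - r by omega, Nat.choose_symm hrn]
      have h2 : y ^ n = y ^ (n - r) * y ^ r := by rw [← pow_add]; congr 1; omega
      rw [h2, one_div, inv_pow]
      have hy1 : y ^ r ≠ 0 := by positivity
      field_simp
    rw [h1, hAprod, eval_multiset_prod, eval_multiset_prod, Multiset.map_map, Multiset.map_map,
      ← hs]
    clear h1 hAprod hAc' hAc hAeval hA' hA A A' hfac hs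
    induction s using Multiset.induction with
    | empty => simp
    | cons a s ih =>
      rw [Multiset.card_cons, Multiset.map_cons, Multiset.prod_cons, Multiset.map_cons,
        Multiset.prod_cons, ← ih, pow_succ]
      simp only [Function.comp, eval_add, eval_C, eval_mul, eval_X]
      field_simp
      ring
  constructor
  · intro k _ hk
    have h := conv_nonneg s (fun a => x - a) (fun _ => 1) A hAprod k
    unfold alpha
    refine le_of_le_of_eq h ?_
    congr 1
    apply Finset.sum_congr rfl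
    intro j hj
    have hj' : j ≤ 2 * k := by have := Finset.mem_range.1 hj; omega
    rw [hAc, hAc, show n - (2 * k - j) = n - 2 * k + j by omega]
    ring
  · intro k _
    have h := conv_nonneg s (fun _ => 1) (fun a => x - a) A' hAprod' k
    unfold beta
    refine le_of_le_of_eq h ?_
    congr 1
    apply Finset.sum_congr rfl
    intro j _
    rw [hAc', hAc']
    ring

end

end Pool.Agent.Results.MP_6eafb7_an.NorlundPositivity
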